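import Pool.Agent.helper12.DD.Spec2

/-!
# Part AL0 of project dw (MP_baa4d7_al)

The alternating sums for `d = 0` are zero.
-/

set_option autoImplicit false

open Pool.Agent.helper49.Blk

namespace Pool.Agent.DD

/-- The induced block condition for `N = ⊤`. -/
theorem AL0_top {G : Type} [Group G] [Finite G] (M : Ideal (integralClosure ℤ ℂ)) (χ : G → ℂ)
    (N : Subgroup G) (hN : N = ⊤) (ψ : N → ℂ) (hψ : ψ ∈ Irr N) (hI : Induces M N χ ψ) :
    ∃ ψ' ∈ Irr G, SameBlock M χ ψ' ∧ ψ' 1 = ψ 1 := by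
  subst hN
  have e1 : (fun g : G => ψ (Subgroup.topEquiv.symm g)) ∈ Irr G :=
    (TRI G (⊤ : Subgroup G) Subgroup.topEquiv.symm ψ).1 hψ
  refine ⟨fun g : G => ψ (Subgroup.topEquiv.symm g), e1, ?_, ?_⟩
  · intro g
    obtain ⟨a, ha, hae⟩ := hI g
    refine ⟨-a, M.neg_mem ha, ?_⟩
    have hcl := ((IRF G).2 _ e1).2
    have key : omInd ⊤ ψ g = omega (fun g : G => ψ (Subgroup.topEquiv.symm g)) g := by
      unfold omInd omega
      congr 1
      have h1 : ∑ᶠ x ∈ {x : (⊤ : Subgroup G) | IsConj g (x : G)}, ψ x =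
          ∑ᶠ x ∈ {x : (⊤ : Subgroup G) | IsConj g (x : G)},
            ψ (Subgroup.topEquiv.symm g) := by
        refine finsum_congr fun x => finsum_congr fun hx => ?_
        obtain ⟨c, hc⟩ := isConj_iff.1 (show IsConj g (x : G) from hx)
        have h2 := hcl g c
        have h3 : (Subgroup.topEquiv.symm (c * g * c⁻¹) : (⊤ : Subgroup G)) = x := by
          rw [hc]
          rfl
        rw [← h3]
        exact h2
      rw [h1, finsum_mem_eq_finite_toFinset_sum _ (Set.toFinite _), Finset.sum_const,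
        nsmul_eq_mul]
      congr 1
      have h4 : (Set.Finite.toFinset
          (Set.toFinite {x : (⊤ : Subgroup G) | IsConj g (x : G)})).card =
          Nat.card {x : (⊤ : Subgroup G) | IsConj g (x : G)} := by
        rw [← Set.ncard_eq_toFinset_card _ (Set.toFinite _)]
        rfl
      rw [h4]
      congr 1
      exact Nat.card_congr (Equiv.subtypeEquiv Subgroup.topEquiv.toEquiv (fun x => Iff.rfl))
    rw [← key]
    have h5 : ((-a : integralClosure ℤ ℂ) : ℂ) = -((a : integralClosure ℤ ℂ) : ℂ) := by simp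
    rw [h5, ← hae]
    ring
  · rfl

/-- The last member of a radical chain. -/
theorem AL0_last {G : Type} [Group G] (p : ℕ) (C : List (Subgroup G)) (hC : Radical p C) :
    (∃ P₀, C = [P₀]) ∨ ∃ P : Subgroup G, P ≠ ⊥ ∧ IsOp p (NC C) P := by
  match C, hC with
  | [], hC => exact absurd rfl hC.ne
  | [P₀], hC => exact Or.inl ⟨P₀, rfl⟩
  | P₀ :: P₁ :: C', hC =>
    right
    have hlen : (P₀ :: P₁ :: C').length = C'.length + 2 := by simp
    have hk : C'.length + 1 < (P₀ :: P₁ :: C').length := by omega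
    have h1 := hC.succ C'.length hk
    have h2 : (P₀ :: P₁ :: C').take (C'.length + 2) = P₀ :: P₁ :: C' := by
      rw [← hlen]
      exact List.take_length
    rw [h2] at h1
    refine ⟨_, ?_, h1⟩
    have h4 := List.pairwise_iff_getElem.1 hC.strict 0 (C'.length + 1) (by omega) hk (by omega)
    intro h
    rw [h] at h4
    exact not_lt_bot h4

theorem AL0_empty (hZPN : ZPN_stmt) (hZBL : ZBL_stmt) (p : ℕ) (hp : p.Prime)
    (M : Ideal (integralClosure ℤ ℂ)) (hM : M.IsMaximal) (hpM : (p : integralClosure ℤ ℂ) ∈ M)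
    (G E : Type) [Group G] [Finite G] [Group E] (ι : G →* E) (hop : IsOp p (⊤ : Subgroup G) ⊥)
    (χ : G → ℂ) (hpos : HasPositiveDefect p {ψ | ψ ∈ Irr G ∧ SameBlock M χ ψ}) (U : Subgroup E)
    (C : List (Subgroup G)) (hC : Radical p C) :
    kC p M ι χ C 0 U = 0 := by
  have hem : kset p M ι χ (NC C) {P | P ∈ C} 0 U = ∅ := by
    rw [Set.eq_empty_iff_forall_notMem]
    rintro ψ ⟨hψ, ⟨m, hm, hmd⟩, hI, -⟩
    rw [add_zero] at hmd
    rcases AL0_last p C hC with ⟨P₀, rfl⟩ | ⟨P, hne, h1⟩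
    · have h0 : P₀ = ⊥ := IsGreatest.unique (hC.zero P₀ rfl) hop
      have hNC : NC [P₀] = ⊤ := by
        rw [h0]
        unfold NC
        simp only [List.mem_singleton, iInf_iInf_eq_left]
        exact Subgroup.normalizer_eq_top _
      obtain ⟨ψ', hψ', hsb, h1⟩ := AL0_top M χ (NC [P₀]) hNC ψ hψ hI
      obtain ⟨χ₁, ⟨hχ₁, hsb₁⟩, n, hn, hlt⟩ := hpos
      have hsb' : SameBlock M χ₁ ψ' := by
        intro g
        obtain ⟨a, ha, hae⟩ := hsb g
        obtain ⟨b, hb, hbe⟩ := hsb₁ g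
        refine ⟨a - b, M.sub_mem ha hb, ?_⟩
        have h5 : ((a - b : integralClosure ℤ ℂ) : ℂ) =
          ((a : integralClosure ℤ ℂ) : ℂ) - ((b : integralClosure ℤ ℂ) : ℂ) := by simp
        rw [h5, ← hae, ← hbe]
        ring
      have h6 := hZBL p hp M hM hpM G χ₁ hχ₁ ψ' hψ' hsb' n m hn (h1.trans hm) hlt
      have h7 : Nat.card (NC [P₀]) = Nat.card G := by
        rw [hNC]
        exact Subgroup.card_top
      rw [h7] at hmd
      omega
    · have hN : (P.subgroupOf (NC C)).Normal :=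
        (Subgroup.normal_subgroupOf_iff_le_normalizer h1.1.1).2 h1.1.2.2
      have hpg : IsPGroup p (P.subgroupOf (NC C)) :=
        h1.1.2.1.of_equiv (Subgroup.subgroupOfEquivOfLe h1.1.1).symm
      have hne' : P.subgroupOf (NC C) ≠ ⊥ := by
        intro h
        rw [Subgroup.subgroupOf_eq_bot] at h
        exact hne (by simpa using h.eq_bot_of_le h1.1.1)
      have h5 := hZPN p hp M hM hpM (NC C) (P.subgroupOf (NC C)) hN hpg hne' ψ hψ m hm
      omega
  unfold kC
  rw [hem]
  exact Set.ncard_empty _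

theorem AL0 (hZPN : ZPN_stmt) (hZBL : ZBL_stmt) : AL0_stmt := by
  intro p hp M hM hpM G E _ _ _ ι hop χ hχ hpos U
  unfold altQ
  apply finsum_mem_eq_zero_of_forall_eq_zero
  intro C hC
  rw [AL0_empty hZPN hZBL p hp M hM hpM G E ι hop χ hpos U C hC]
  simp

end Pool.Agent.DD
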